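import Mathlib

set_option autoImplicit false

/-!
# Multitype Bienaymé–Galton–Watson trees: definitions
-/

open MeasureTheory ProbabilityTheory

namespace Q287.BGW

variable {K : ℕ}

/-- Words over the finite set of types are given the discrete `σ`-algebra. -/
instance : MeasurableSpace (List (Fin K)) := ⊤

/-- Labels `none` (no vertex) or `some j` (a vertex of type `j`) with the discrete `σ`-algebra. -/
instance : MeasurableSpace (Option (Fin K)) := ⊤

instance : DiscreteMeasurableSpace (List (Fin K)) := ⟨fun _ => trivial⟩

instance : DiscreteMeasurableSpace (Option (Fin K)) := ⟨fun _ => trivial⟩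

/-- The plane tree with types whose root has type `i` and in which a vertex `u` of type `j` has
children of types given by the word `ξ u j`. Vertices are finite words over `ℕ`, the empty word
is the root and `m :: u` is the `(m+1)`-st child of `u`; the tree is the function which sends `u`
to `some` (type of `u`) if `u` is a vertex, and to `none` if it is not. -/
def tree (i : Fin K) (ξ : List ℕ → Fin K → List (Fin K)) : List ℕ → Option (Fin K)
  | [] => some i
  | m :: u => (tree i ξ u).bind fun j => (ξ u j)[m]?

/-- The law of the independent words `ξ u j`, with `ξ u j` of law `ζ j`. -/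
noncomputable def wordsLaw (ζ : Fin K → PMF (List (Fin K))) :
    Measure (List ℕ → Fin K → List (Fin K)) :=
  Measure.infinitePi fun _ => Measure.infinitePi fun j => (ζ j).toMeasure

/-- The law of the `ζ`-BGW tree with root type `i`. -/
noncomputable def bgw (ζ : Fin K → PMF (List (Fin K))) (i : Fin K) :
    Measure (List ℕ → Option (Fin K)) :=
  (wordsLaw ζ).map (tree i)

/-- The number `N_k(T)` of vertices of type `k`. -/
noncomputable def numType (T : List ℕ → Option (Fin K)) (k : Fin K) : ℕ∞ :=
  {u | T u = some k}.encard

/-- The event `Γ (N_1, …, N_K)ᵀ = g` for a single row `Γ` with nonnegative integer entries. -/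
def condEvent (Γ : Fin K → ℕ) (g : ℕ) : Set (List ℕ → Option (Fin K)) :=
  {T | ∑ k, (Γ k : ℕ∞) * numType T k = g}

/-- Condition (i): the two families have the same supports. -/
def SameSupports (ζ ζ' : Fin K → PMF (List (Fin K))) : Prop :=
  ∀ (i : Fin K) (x : List (Fin K)), ζ i x = 0 ↔ ζ' i x = 0

/-- Condition (ii): for every `i` and every `g` for which the conditioning event has positive
probability under `ζ`, the two conditioned trees have the same law. -/
def SameConditioned (Γ : Fin K → ℕ) (ζ ζ' : Fin K → PMF (List (Fin K))) : Prop :=
  ∀ (i : Fin K) (g : ℕ), 0 < bgw ζ i (condEvent Γ g) →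
    ProbabilityTheory.cond (bgw ζ i) (condEvent Γ g) =
      ProbabilityTheory.cond (bgw ζ' i) (condEvent Γ g)

/-- Irreducibility: every type can appear among the descendants of every type. -/
def Irreducible (ζ : Fin K → PMF (List (Fin K))) : Prop :=
  ∀ i j : Fin K, Relation.TransGen (fun a b => ∃ w, ζ a w ≠ 0 ∧ b ∈ w) i j

end Q287.BGW
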