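import Pool.Agent.Q287.BGW.Path

set_option autoImplicit false

/-!
# The two offspring families
-/

open MeasureTheory ProbabilityTheory
open scoped ENNReal

namespace Q287.BGW

/-- No child, or one child of the other type, with probability one half each. -/
noncomputable def half (j : Fin 2) : PMF (List (Fin 2)) :=
  PMF.uniformOfFinset {[], [j + 1]} (by simp)

/-- The first family: type `0` has exactly one child, of type `1`. -/
noncomputable def zeta (j : Fin 2) : PMF (List (Fin 2)) :=
  if j = 0 then PMF.pure [1] else half j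

theorem half_nil (j : Fin 2) : half j [] = 2⁻¹ := by
  simp [half]

theorem half_cons (j : Fin 2) : half j [j + 1] = 2⁻¹ := by
  simp [half]

theorem half_supp (j : Fin 2) (w : List (Fin 2)) (h : half j w ≠ 0) : w = [] ∨ w = [j + 1] := by
  by_contra hcon
  push Not at hcon
  apply h
  simp [half, hcon.1, hcon.2]

theorem zeta_zero : zeta 0 = PMF.pure [1] := by simp [zeta]

theorem zeta_one : zeta 1 = half 1 := by simp [zeta]

theorem zeta_supp (j : Fin 2) (w : List (Fin 2)) (h : zeta j w ≠ 0) : w = [] ∨ w = [j + 1] := by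
  fin_cases j
  · right
    simp only [Fin.zero_eta, zeta_zero, PMF.pure_apply, ne_eq, ite_eq_right_iff, one_ne_zero,
      imp_false, not_not] at h
    rw [h]; rfl
  · have h1 : half 1 w ≠ 0 := by rw [← zeta_one]; exact h
    exact half_supp 1 w h1

instance (ζ : Fin 2 → PMF (List (Fin 2))) : IsProbabilityMeasure (wordsLaw ζ) := by
  unfold wordsLaw; infer_instance

instance (ζ : Fin 2 → PMF (List (Fin 2))) (i : Fin 2) : IsProbabilityMeasure (bgw ζ i) := by
  unfold bgw
  exact Measure.isProbabilityMeasure_map (measurable_tree i).aemeasurable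

theorem words_ae (ζ : Fin 2 → PMF (List (Fin 2)))
    (h : ∀ j w, ζ j w ≠ 0 → w = [] ∨ w = [j + 1]) :
    ∀ᵐ ξ ∂wordsLaw ζ, ∀ u j, ξ u j = [] ∨ ξ u j = [j + 1] := by
  rw [ae_all_iff]
  intro u
  refine (measurePreserving_eval_infinitePi (fun _ : List ℕ =>
    Measure.infinitePi fun j => (ζ j).toMeasure) u).quasiMeasurePreserving.ae
    (p := fun ω : Fin 2 → List (Fin 2) => ∀ j, ω j = [] ∨ ω j = [j + 1]) ?_
  rw [ae_all_iff]
  intro j
  refine (measurePreserving_eval_infinitePi (fun j => (ζ j).toMeasure) j).quasiMeasurePreserving.ae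
    (p := fun w : List (Fin 2) => w = [] ∨ w = [j + 1]) ?_
  rw [ae_iff, PMF.toMeasure_apply_eq_zero_iff]
  · rw [Set.disjoint_left]
    intro w hw1 hw2
    exact hw2 (h j w ((PMF.mem_support_iff _ _).1 hw1))
  · exact MeasurableSet.of_discrete

theorem bgw_isPath (ζ : Fin 2 → PMF (List (Fin 2)))
    (h : ∀ j w, ζ j w ≠ 0 → w = [] ∨ w = [j + 1]) (i : Fin 2) :
    ∀ᵐ T ∂bgw ζ i, IsPath i T := by
  unfold bgw
  rw [ae_map_iff (measurable_tree i).aemeasurable (measurableSet_isPath i)]
  filter_upwards [words_ae ζ h] with ξ hξ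
  exact tree_isPath i ξ hξ

/-- A conditioned law concentrated on one tree. -/
theorem cond_eq_dirac {α : Type*} [MeasurableSpace α] (μ : Measure α) [IsProbabilityMeasure μ]
    (s : Set α) (a : α) (hs : μ s ≠ 0) (h : ∀ᵐ x ∂μ, x ∈ s → x = a) :
    ProbabilityTheory.cond μ s = Measure.dirac a := by
  ext t ht
  rw [ProbabilityTheory.cond, Measure.smul_apply, Measure.restrict_apply ht, smul_eq_mul,
    Measure.dirac_apply' _ ht]
  by_cases hat : a ∈ t
  · rw [Set.indicator_of_mem hat]
    have h1 : μ (t ∩ s) = μ s := by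
      refine measure_congr ?_
      filter_upwards [h] with x hx
      refine propext ⟨fun h2 => h2.2, fun h2 => ⟨?_, h2⟩⟩
      have := hx h2
      subst this
      exact hat
    rw [h1, Pi.one_apply]
    exact ENNReal.inv_mul_cancel hs (measure_ne_top _ _)
  · rw [Set.indicator_of_notMem hat]
    have h1 : μ (t ∩ s) = 0 := by
      rw [← nonpos_iff_eq_zero, ← (ae_iff.1 h)]
      refine measure_mono ?_
      intro x hx hcon
      have := hcon hx.2
      subst this
      exact hat hx.1
    rw [h1, mul_zero]

theorem event_pos (i : Fin 2) (g : ℕ) (hg : 0 < g) : bgw half i (condEvent (fun _ => 1) g) ≠ 0 := by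
  classical
  -- the marks which produce the path tree
  let w : List ℕ → Set (Fin 2 → List (Fin 2)) := fun u =>
    {fun j => if u.length + 1 < g then [j + 1] else []}
  have h1 : wordsLaw half (Set.pi ((Finset.range g).image (fun l : ℕ => List.replicate l 0)) w) ≠ 0 := by
    unfold wordsLaw
    rw [Measure.infinitePi_pi _ (fun u _ => measurableSet_singleton _)]
    rw [Finset.prod_ne_zero_iff]
    intro u _
    show Measure.infinitePi _ {_} ≠ 0
    rw [Measure.infinitePi_singleton_of_fintype, Finset.prod_ne_zero_iff]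
    intro j _
    rw [PMF.toMeasure_apply_singleton _ _ (measurableSet_singleton _)]
    split_ifs
    · rw [half_cons]; simp
    · rw [half_nil]; simp
  have h2 : Set.pi ((Finset.range g).image (fun l : ℕ => List.replicate l 0)) w ⊆
      (tree i) ⁻¹' {pathTree i g} := by
    intro ξ hξ
    rw [Set.mem_preimage, Set.mem_singleton_iff]
    refine tree_eq_pathTree i g hg ξ ?_
    intro l hl j
    have h3 := hξ (List.replicate l 0) (by
      rw [Finset.coe_image]
      exact ⟨l, by simpa using hl, rfl⟩)
    have h4 := congrFun (show ξ (List.replicate l 0) = _ from h3) j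
    simpa using h4
  have h3 : bgw half i {pathTree i g} ≠ 0 := by
    unfold bgw
    rw [Measure.map_apply (measurable_tree i) (measurableSet_singleton _)]
    exact fun hcon => h1 (measure_mono_null h2 hcon)
  refine fun hcon => h3 (measure_mono_null ?_ hcon)
  rintro T rfl
  exact pathTree_mem i g

theorem sameConditioned : SameConditioned (fun _ => 1) zeta half := by
  intro i g hpos
  have h1 : ∀ᵐ T ∂bgw zeta i, T ∈ condEvent (fun _ => 1) g → T = pathTree i g ∧ 0 < g := by
    filter_upwards [bgw_isPath zeta zeta_supp i] with T hT hg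
    exact hT.eq_pathTree hg
  have h2 : ∀ᵐ T ∂bgw half i, T ∈ condEvent (fun _ => 1) g → T = pathTree i g := by
    filter_upwards [bgw_isPath half half_supp i] with T hT hg
    exact (hT.eq_pathTree hg).1
  have hg : 0 < g := by
    by_contra hcon
    have h3 : bgw zeta i (condEvent (fun _ => 1) g) = 0 := by
      rw [← nonpos_iff_eq_zero, ← (ae_iff.1 h1)]
      refine measure_mono ?_
      intro T hT hcon2
      exact hcon (hcon2 hT).2
    exact hpos.ne' h3
  rw [cond_eq_dirac _ _ (pathTree i g) hpos.ne' (h1.mono fun T h hT => (h hT).1),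
    cond_eq_dirac _ _ (pathTree i g) (event_pos i g hg) h2]

theorem not_sameSupports : ¬ SameSupports zeta half := by
  intro h
  have h1 := (h 0 []).1 (by rw [zeta_zero]; simp)
  rw [half_nil] at h1
  simp at h1

/-- Almost sure finiteness. -/
theorem ae_finite (ζ : Fin 2 → PMF (List (Fin 2)))
    (h : ∀ j w, ζ j w ≠ 0 → w = [] ∨ w = [j + 1]) (h1 : ζ 1 = half 1) (i : Fin 2) :
    ∀ᵐ T ∂bgw ζ i, {u | T u ≠ none}.Finite := by
  have halt : ∀ k l, alt i (2 * k + l) = alt i l := by
    intro k
    induction k with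
    | zero => intro l; simp
    | succ k ih =>
      intro l
      have : 2 * (k + 1) + l = (2 * k + l) + 1 + 1 := by ring
      rw [this, alt, alt, ih]
      generalize alt i l = a
      fin_cases a <;> rfl
  obtain ⟨c, hc⟩ : ∃ c, alt i c = 1 := by
    fin_cases i
    · exact ⟨1, rfl⟩
    · exact ⟨0, rfl⟩
  have hinj : Function.Injective (fun k : ℕ => List.replicate (2 * k + c) 0) := by
    intro a b hab
    have := congrArg List.length hab
    simp at this
    omega
  have h2 : ∀ᵐ ξ ∂wordsLaw ζ, ∃ k : ℕ, ξ (List.replicate (2 * k + c) 0) 1 = [] := by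
    rw [ae_iff]
    have h3 : ∀ n : ℕ, wordsLaw ζ {ξ | ¬ ∃ k : ℕ, ξ (List.replicate (2 * k + c) 0) 1 = []} ≤ (2⁻¹ : ℝ≥0∞) ^ n := by
      intro n
      classical
      have h4 : {ξ : List ℕ → Fin 2 → List (Fin 2) | ¬ ∃ k : ℕ, ξ (List.replicate (2 * k + c) 0) 1 = []} ⊆
          Set.pi ((Finset.range n).image (fun k : ℕ => List.replicate (2 * k + c) 0))
            (fun _ => (fun ω : Fin 2 → List (Fin 2) => ω 1) ⁻¹' {[]}ᶜ) := by
        intro ξ hξ
        have hξ' : ¬ ∃ k : ℕ, ξ (List.replicate (2 * k + c) 0) 1 = [] := hξ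
        push Not at hξ'
        rw [Set.mem_pi]
        intro u hu
        rw [Finset.coe_image] at hu
        obtain ⟨k, _, rfl⟩ := hu
        exact hξ' k
      refine (measure_mono h4).trans ?_
      unfold wordsLaw
      rw [Measure.infinitePi_pi _ (fun _ _ => (measurable_pi_apply _) MeasurableSet.of_discrete),
        Finset.prod_image (fun a _ b _ hab => hinj hab), Finset.prod_const, Finset.card_range]
      gcongr
      rw [(measurePreserving_eval_infinitePi (fun j => (ζ j).toMeasure) (1 : Fin 2)).measure_preimage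
        MeasurableSet.of_discrete.nullMeasurableSet]
      rw [prob_compl_eq_one_sub (measurableSet_singleton _),
        PMF.toMeasure_apply_singleton _ _ (measurableSet_singleton _), h1, half_nil,
        ENNReal.one_sub_inv_two]
    have h4 : Filter.Tendsto (fun m : ℕ => (2⁻¹ : ℝ≥0∞) ^ m) Filter.atTop (nhds 0) :=
      ENNReal.tendsto_pow_atTop_nhds_zero_of_lt_one (ENNReal.inv_lt_one.2 (by norm_num))
    exact le_antisymm (ge_of_tendsto' h4 h3) zero_le
  have h5 : ∀ᵐ T ∂bgw ζ i, ∃ l : ℕ, T (List.replicate l 0) = none := by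
    unfold bgw
    rw [ae_map_iff (measurable_tree i).aemeasurable]
    · filter_upwards [h2, words_ae ζ h] with ξ hξ hw
      obtain ⟨k, hk⟩ := hξ
      by_contra hcon
      push Not at hcon
      -- the vertex at depth 2k+c has type 1 and no child
      have h7 := ((tree_isPath i ξ hw).eq _ (hcon (2 * k + c))).2
      rw [List.length_replicate, halt, hc] at h7
      have h8 := hcon (2 * k + c + 1)
      apply h8
      rw [List.replicate_succ]
      show ((tree i ξ (List.replicate (2 * k + c) 0)).bind fun j =>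
        (ξ (List.replicate (2 * k + c) 0) j)[0]?) = none
      rw [h7, Option.bind_some, hk]
      rfl
    · have h6 : {T : List ℕ → Option (Fin 2) | ∃ l : ℕ, T (List.replicate l 0) = none} =
          ⋃ l : ℕ, (fun T => T (List.replicate l 0)) ⁻¹' {none} := by
        ext T; simp
      rw [h6]
      exact MeasurableSet.iUnion fun l => (measurable_pi_apply _) MeasurableSet.of_discrete
  filter_upwards [h5, bgw_isPath ζ h i] with T hT hp
  obtain ⟨l, hl⟩ := hT
  refine Set.Finite.subset ((Finset.range l).image (fun k : ℕ => List.replicate k 0)).finite_toSet ?_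
  intro u hu
  rw [Finset.coe_image]
  refine ⟨u.length, ?_, (hp.eq u hu).1.symm⟩
  rw [Finset.coe_range, Set.mem_Iio]
  by_contra hcon
  have h9 : T (List.replicate u.length 0) ≠ none := by
    rw [← (hp.eq u hu).1]; exact hu
  exact hp.down (not_lt.1 hcon) h9 hl

theorem irreducible_of_cons (ζ : Fin 2 → PMF (List (Fin 2))) (h : ∀ j, ζ j [j + 1] ≠ 0) :
    Irreducible ζ := by
  have h1 : ∀ j : Fin 2, Relation.TransGen (fun a b => ∃ w, ζ a w ≠ 0 ∧ b ∈ w) j (j + 1) :=
    fun j => Relation.TransGen.single ⟨_, h j, by simp⟩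
  have h2 : ∀ j : Fin 2, Relation.TransGen (fun a b => ∃ w, ζ a w ≠ 0 ∧ b ∈ w) j j := by
    intro j
    have h3 := (h1 j).trans (h1 (j + 1))
    have h4 : j + 1 + 1 = j := by fin_cases j <;> rfl
    rwa [h4] at h3
  intro i j
  by_cases hij : i = j
  · rw [hij]; exact h2 j
  · have h3 : j = i + 1 := by
      fin_cases i <;> fin_cases j <;> simp_all
    rw [h3]; exact h1 i

theorem irreducible_half : Irreducible half :=
  irreducible_of_cons _ fun j => by rw [half_cons]; simp

theorem irreducible_zeta : Irreducible zeta :=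
  irreducible_of_cons _ fun j => by
    fin_cases j
    · simp [zeta_zero]
    · show zeta 1 [1 + 1] ≠ 0
      rw [zeta_one, half_cons]; simp

end Q287.BGW
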