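import Pool.Agent.Q287.BGW.Defs

set_option autoImplicit false

/-!
# BGW trees which are paths with alternating types
-/

open MeasureTheory ProbabilityTheory
open scoped ENNReal

namespace Q287.BGW

theorem measurable_tree {K : ℕ} (i : Fin K) : Measurable (tree i) := by
  rw [measurable_pi_iff]
  intro u
  induction u with
  | nil => exact measurable_const
  | cons m u ih =>
    have h1 : Measurable (fun ξ : List ℕ → Fin K → List (Fin K) => (tree i ξ u, ξ u)) :=
      ih.prodMk (measurable_pi_apply u)
    have h2 : Measurable (fun p : Option (Fin K) × (Fin K → List (Fin K)) =>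
        p.1.bind fun j => (p.2 j)[m]?) := measurable_of_countable _
    exact h2.comp h1

/-- Alternating types. -/
def alt (i : Fin 2) : ℕ → Fin 2
  | 0 => i
  | l + 1 => alt i l + 1

/-- The path with `g` vertices and alternating types. -/
def pathTree (i : Fin 2) (g : ℕ) : List ℕ → Option (Fin 2) := fun u =>
  if u = List.replicate u.length 0 ∧ u.length < g then some (alt i u.length) else none

/-- Path trees with alternating types, finite or infinite. -/
def IsPath (i : Fin 2) (T : List ℕ → Option (Fin 2)) : Prop :=
  T [] = some i ∧ ∀ m u, T (m :: u) = none ∨ (m = 0 ∧ ∃ j, T u = some j ∧ T (m :: u) = some (j + 1))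

theorem IsPath.eq {i : Fin 2} {T : List ℕ → Option (Fin 2)} (h : IsPath i T) (u : List ℕ)
    (hu : T u ≠ none) : u = List.replicate u.length 0 ∧ T u = some (alt i u.length) := by
  induction u with
  | nil => exact ⟨rfl, h.1⟩
  | cons m u ih =>
    rcases h.2 m u with h1 | ⟨rfl, j, h2, h3⟩
    · exact absurd h1 hu
    · obtain ⟨h4, h5⟩ := ih (by rw [h2]; simp)
      refine ⟨?_, ?_⟩
      · rw [List.length_cons, List.replicate_succ, ← h4]
      · rw [h3, List.length_cons, alt]
        rw [h5] at h2
        rw [Option.some.inj h2]

theorem IsPath.down {i : Fin 2} {T : List ℕ → Option (Fin 2)} (h : IsPath i T) {l l' : ℕ}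
    (hl : l ≤ l') (h1 : T (List.replicate l' 0) ≠ none) : T (List.replicate l 0) ≠ none := by
  induction l', hl using Nat.le_induction with
  | base => exact h1
  | succ n _ ih =>
    apply ih
    rw [List.replicate_succ] at h1
    rcases h.2 0 (List.replicate n 0) with h2 | ⟨_, j, h2, h3⟩
    · exact absurd h2 h1
    · rw [h2]; simp

theorem sum_numType (T : List ℕ → Option (Fin 2)) :
    ∑ k : Fin 2, ((1 : ℕ) : ℕ∞) * numType T k = {u | T u ≠ none}.encard := by
  have h1 : {u | T u ≠ none} = {u | T u = some 0} ∪ {u | T u = some 1} := by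
    ext u
    simp only [Set.mem_union, Set.mem_ofPred_eq]
    constructor
    · intro h
      obtain ⟨j, hj⟩ := Option.ne_none_iff_exists'.1 h
      rw [hj]
      fin_cases j <;> simp
    · rintro (h | h) <;> rw [h] <;> simp
  rw [h1, Set.encard_union_eq]
  · simp [Fin.sum_univ_two, numType]
  · rw [Set.disjoint_left]
    intro u h2 h3
    simp only [Set.mem_ofPred_eq] at h2 h3
    rw [h2] at h3
    simp at h3

theorem IsPath.encard {i : Fin 2} {T : List ℕ → Option (Fin 2)} (h : IsPath i T) :
    {u | T u ≠ none}.encard = {l : ℕ | T (List.replicate l 0) ≠ none}.encard := by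
  have h1 : {u | T u ≠ none} = (fun l : ℕ => List.replicate l 0) '' {l : ℕ | T (List.replicate l 0) ≠ none} := by
    ext u
    simp only [Set.mem_image, Set.mem_ofPred_eq]
    constructor
    · intro hu
      refine ⟨u.length, ?_, (h.eq u hu).1.symm⟩
      rw [← (h.eq u hu).1]; exact hu
    · rintro ⟨l, hl, rfl⟩; exact hl
  rw [h1]
  refine Function.Injective.encard_image ?_ _
  intro a b hab
  have := congrArg List.length hab
  simpa using this

/-- A path tree with `g` vertices is the path tree of length `g`. -/
theorem IsPath.eq_pathTree {i : Fin 2} {T : List ℕ → Option (Fin 2)} (h : IsPath i T) {g : ℕ}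
    (hg : T ∈ condEvent (fun _ => 1) g) : T = pathTree i g ∧ 0 < g := by
  have h1 : {l : ℕ | T (List.replicate l 0) ≠ none}.encard = g := by
    rw [← h.encard, ← sum_numType]
    exact hg
  have h2 : {l : ℕ | T (List.replicate l 0) ≠ none} = {l | l < g} := by
    set A : Set ℕ := {l : ℕ | T (List.replicate l 0) ≠ none} with hA
    have hex : ∃ l, l ∉ A := by
      by_contra hcon
      push Not at hcon
      have h3 : A = Set.univ := Set.eq_univ_of_forall hcon
      rw [h3, Set.encard_univ] at h1
      simp at h1
    classical
    have h4 : A = {l | l < Nat.find hex} := by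
      ext l
      simp only [Set.mem_ofPred_eq]
      constructor
      · intro hl
        by_contra hcon
        exact Nat.find_spec hex (h.down (not_lt.1 hcon) hl)
      · intro hl
        by_contra hcon
        exact Nat.find_min hex hl hcon
    generalize Nat.find hex = n at h4
    have h5 : A.encard = n := by
      rw [h4]
      have : {l : ℕ | l < n} = ((Finset.range n : Finset ℕ) : Set ℕ) := by
        ext; simp
      rw [this, Set.encard_coe_eq_coe_finsetCard, Finset.card_range]
    rw [h5] at h1
    have h6 : n = g := by exact_mod_cast h1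
    rw [h4, h6]
  have h3 : T = pathTree i g := by
    funext u
    unfold pathTree
    by_cases hu : T u = none
    · rw [hu, if_neg]
      rintro ⟨h4, h5⟩
      have h6 : u.length ∈ {l : ℕ | T (List.replicate l 0) ≠ none} := by
        rw [h2]; exact h5
      exact h6 (by rw [← h4]; exact hu)
    · obtain ⟨h4, h5⟩ := h.eq u hu
      have h6 : u.length ∈ {l : ℕ | T (List.replicate l 0) ≠ none} := by
        show T (List.replicate u.length 0) ≠ none
        rw [← h4]; exact hu
      rw [h2] at h6
      rw [h5, if_pos ⟨h4, h6⟩]
  refine ⟨h3, ?_⟩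
  have h4 := h.1
  rw [h3] at h4
  unfold pathTree at h4
  by_contra hcon
  rw [if_neg] at h4
  · simp at h4
  · rintro ⟨_, h5⟩
    exact hcon (by simpa using h5)

theorem pathTree_mem (i : Fin 2) (g : ℕ) : pathTree i g ∈ condEvent (fun _ => 1) g := by
  show ∑ k : Fin 2, ((1 : ℕ) : ℕ∞) * numType (pathTree i g) k = g
  rw [sum_numType]
  have h1 : {u | pathTree i g u ≠ none} =
      (((Finset.range g).image (fun l : ℕ => List.replicate l 0) : Finset (List ℕ)) : Set (List ℕ)) := by
    ext u
    simp only [Set.mem_ofPred_eq, Finset.coe_image, Set.mem_image, Finset.coe_range, Set.mem_Iio]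
    unfold pathTree
    constructor
    · intro hu
      by_cases hc : u = List.replicate u.length 0 ∧ u.length < g
      · exact ⟨u.length, hc.2, hc.1.symm⟩
      · rw [if_neg hc] at hu; exact absurd rfl hu
    · rintro ⟨l, hl, rfl⟩
      rw [if_pos (by simpa using hl)]
      simp
  rw [h1, Set.encard_coe_eq_coe_finsetCard, Finset.card_image_of_injective, Finset.card_range]
  intro a b hab
  have := congrArg List.length hab
  simpa using this

/-- The tree built from words `[]` and `[j + 1]` is a path tree. -/
theorem tree_isPath (i : Fin 2) (ξ : List ℕ → Fin 2 → List (Fin 2))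
    (hξ : ∀ u j, ξ u j = [] ∨ ξ u j = [j + 1]) : IsPath i (tree i ξ) := by
  refine ⟨rfl, fun m u => ?_⟩
  show ((tree i ξ u).bind fun j => (ξ u j)[m]?) = none ∨ (m = 0 ∧ ∃ j, tree i ξ u = some j ∧
    ((tree i ξ u).bind fun j => (ξ u j)[m]?) = some (j + 1))
  cases hT : tree i ξ u with
  | none => left; rfl
  | some j =>
    simp only [Option.bind_some]
    rcases hξ u j with h | h
    · left; rw [h]; simp
    · rw [h]
      cases m with
      | zero => right; simp
      | succ m => left; simp

theorem tree_eq_pathTree (i : Fin 2) (g : ℕ) (hg : 0 < g) (ξ : List ℕ → Fin 2 → List (Fin 2))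
    (h1 : ∀ l < g, ∀ j, ξ (List.replicate l 0) j = if l + 1 < g then [j + 1] else []) :
    tree i ξ = pathTree i g := by
  funext u
  induction u with
  | nil => simp [tree, pathTree, alt, hg]
  | cons m u ih =>
    show ((tree i ξ u).bind fun j => (ξ u j)[m]?) = _
    rw [ih]
    unfold pathTree
    by_cases hc : u = List.replicate u.length 0 ∧ u.length < g
    · rw [if_pos hc, Option.bind_some]
      obtain ⟨hc1, hc2⟩ := hc
      have h2 := h1 u.length hc2 (alt i u.length)
      rw [← hc1] at h2
      rw [h2, List.length_cons]
      by_cases hlt : u.length + 1 < g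
      · rw [if_pos hlt]
        cases m with
        | zero =>
          rw [if_pos ⟨by rw [List.replicate_succ, ← hc1], hlt⟩]
          simp [alt]
        | succ m =>
          rw [if_neg]
          · simp
          · rintro ⟨h3, _⟩
            rw [List.replicate_succ] at h3
            simp at h3
      · rw [if_neg hlt, if_neg (fun h => hlt h.2)]
        simp
    · rw [if_neg hc, if_neg]
      · rfl
      · rintro ⟨h3, h4⟩
        apply hc
        rw [List.length_cons] at h4
        rw [List.length_cons, List.replicate_succ] at h3
        exact ⟨(List.cons.inj h3).2, by omega⟩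

theorem measurableSet_isPath (i : Fin 2) : MeasurableSet {T | IsPath i T} := by
  have h0 : {T : List ℕ → Option (Fin 2) | IsPath i T} =
      (fun T => T []) ⁻¹' {some i} ∩ ⋂ m : ℕ, ⋂ u : List ℕ,
        (fun T => (T (m :: u), T u)) ⁻¹' {p : Option (Fin 2) × Option (Fin 2) |
          p.1 = none ∨ (m = 0 ∧ ∃ j, p.2 = some j ∧ p.1 = some (j + 1))} := by
    ext T
    simp [IsPath]
  rw [h0]
  refine MeasurableSet.inter ?_ (MeasurableSet.iInter fun m => MeasurableSet.iInter fun u => ?_)
  · exact (measurable_pi_apply _) (MeasurableSet.of_discrete)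
  · exact ((measurable_pi_apply _).prodMk (measurable_pi_apply _))
      (Set.to_countable _).measurableSet

end Q287.BGW
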